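import Mathlib
import Pool.Agent.H520TT.Sample

/-!
# Independent sets versus transitive tournaments: saving `m - 2` logarithms

`k(n,m)`: least `k` such that every loopless digraph on `k` vertices has an independent set of
size `n` or contains a transitive tournament of size `m`.  We prove
`k(n,m) ≤ n (2732 n / log n)^(m-2)` for all `n ≥ 2`, `m ≥ 3`, and
`k(n,3) ≤ 64 n^2 / log (2n) + 1`.
-/

set_option autoImplicit false

namespace Pool.Agent.Results.MP_e10cd8_co.LogPowerSaving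

open Finset Pool.Agent.H520TT

/-- `Arrow k n m`: every digraph on `k` vertices (no loops, at most one arc in each direction
between two vertices) has an independent set of size `n` or contains a transitive tournament of
size `m`. -/
def Arrow (k n m : ℕ) : Prop :=
  ∀ D : Fin k → Fin k → Prop, (∀ a, ¬ D a a) →
    (∃ S : Finset (Fin k), S.card = n ∧ ∀ a ∈ S, ∀ b ∈ S, ¬ D a b) ∨
    (∃ f : Fin m → Fin k, ∀ i j, i < j → D (f i) (f j))

/-- `k(n,m)`, the least `k` with `Arrow k n m`. -/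
noncomputable def kNum (n m : ℕ) : ℕ := sInf {k : ℕ | Arrow k n m}

theorem arrow_of_good {n m : ℕ} {B : ℝ} (h : Good n m B) {k : ℕ} (hk : B < k) :
    Arrow k n m := by
  intro D hirr
  by_contra hcon
  push Not at hcon
  obtain ⟨h1, h2⟩ := hcon
  have h3 := h (Fin k) D hirr ?_ ?_
  · rw [Fintype.card_fin] at h3
    linarith
  · intro S hS
    by_contra hge
    push Not at hge
    obtain ⟨S', hS', hcard⟩ := Finset.exists_subset_card_eq hge
    obtain ⟨a, ha, b, hb, hab⟩ := h1 S' hcard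
    exact hS a (hS' ha) b (hS' hb) hab
  · rintro ⟨f, hf⟩
    obtain ⟨i, j, hij, hD⟩ := h2 f
    exact hD (hf i j hij)

theorem log_le_sqrt {x : ℝ} (hx : 1 ≤ x) : Real.log x ≤ √x := by
  have hx0 : 0 < x := by linarith
  have h1 : Real.log x = 4 * Real.log (√(√x)) := by
    rw [Real.log_sqrt (Real.sqrt_nonneg _), Real.log_sqrt hx0.le]; ring
  have h2 := Real.log_le_sub_one_of_pos (show 0 < √(√x) by positivity)
  have h3 : √(√x) * √(√x) = √x := Real.mul_self_sqrt (Real.sqrt_nonneg _)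
  nlinarith [sq_nonneg (√(√x) - 2)]

/-- the two step recursion -/
theorem good_rec {n : ℕ} (hn : 2 ≤ n) {ρ : ℝ} (hρ : ρ = 2731 * n / Real.log n) (m : ℕ)
    (h1 : Good n (m + 3) (n * ρ ^ (m + 1))) (h0 : Good n (m + 2) (n * ρ ^ m)) :
    Good n (m + 4) (n * ρ ^ (m + 2)) := by
  have hnR : (2 : ℝ) ≤ n := by exact_mod_cast hn
  have hn0 : (0 : ℝ) < n := by linarith
  have hlog : 0 < Real.log n := Real.log_pos (by linarith)
  have hls : Real.log n ≤ √n := log_le_sqrt (by linarith)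
  have hsn : √(n : ℝ) * √n = n := Real.mul_self_sqrt hn0.le
  have hs1 : 1 ≤ √(n : ℝ) := Real.one_le_sqrt.mpr (by linarith)
  have hρ1 : √(n : ℝ) ≤ ρ := by
    rw [hρ, le_div_iff₀ hlog]
    nlinarith
  have hρge : 1 ≤ ρ := hs1.trans hρ1
  have hρ0 : 0 < ρ := by linarith
  set J : ℝ := n * ρ ^ m with hJ
  set K : ℝ := n * ρ ^ (m + 1) with hK
  have hJ0 : 0 < J := by positivity
  have hK0 : 0 < K := by positivity
  have hKJ : K = J * ρ := by rw [hK, hJ, pow_succ]; ring
  have hJ1 : 1 ≤ J := by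
    rw [hJ]
    have := one_le_pow₀ hρge (n := m)
    nlinarith
  have hsr : √ρ * √ρ = ρ := Real.mul_self_sqrt hρ0.le
  have hsr1 : 1 ≤ √ρ := Real.one_le_sqrt.mpr hρge
  set s : ℝ := √(8 * K * J) with hs
  have hss : s * s = 8 * K * J := Real.mul_self_sqrt (by positivity)
  have hs0 : 0 ≤ s := Real.sqrt_nonneg _
  have hs3 : s ≤ 3 * (J * √ρ) := by
    rw [hs]
    apply Real.sqrt_le_iff.mpr
    refine ⟨by positivity, ?_⟩
    rw [hKJ]
    nlinarith [mul_pos hJ0 hJ0, mul_pos (mul_pos hJ0 hJ0) hρ0]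
  set q : ℕ := ⌊s⌋₊ with hq
  have hq1 : s < (q : ℝ) + 1 := Nat.lt_floor_add_one s
  have hq2 : (q : ℝ) ≤ s := Nat.floor_le hs0
  have hq3 : (q : ℝ) + 1 ≤ 4 * (J * √ρ) := by nlinarith
  have hqpos : (0 : ℝ) < (q : ℝ) + 1 := by positivity
  refine step (q := q) h1 h0 hJ0.le hK0 ?_ ?_ _ ?_
  · nlinarith
  · rw [hKJ]
    nlinarith
  · have hT : 4 * √ρ ≤ 16 * K / ((q : ℝ) + 1) := by
      rw [le_div_iff₀ hqpos, hKJ]
      calc 4 * √ρ * ((q : ℝ) + 1) ≤ 4 * √ρ * (4 * (J * √ρ)) :=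
            mul_le_mul_of_nonneg_left hq3 (by positivity)
        _ = 16 * (J * (√ρ * √ρ)) := by ring
        _ = 16 * (J * ρ) := by rw [hsr]
    have hlT : Real.log n / 4 ≤ Real.log (16 * K / ((q : ℝ) + 1)) := by
      have e1 : Real.log (√ρ) ≤ Real.log (16 * K / ((q : ℝ) + 1)) := by
        apply Real.log_le_log (by positivity)
        linarith
      have e2 : Real.log (√(n : ℝ)) ≤ Real.log ρ := Real.log_le_log (by positivity) hρ1
      rw [Real.log_sqrt hn0.le] at e2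
      rw [Real.log_sqrt hρ0.le] at e1
      linarith
    have hlTpos : 0 < Real.log (16 * K / ((q : ℝ) + 1)) := by linarith
    rw [div_le_iff₀ hlTpos]
    have e3 : (n : ℝ) * ρ ^ (m + 2) = K * ρ := by rw [hK, pow_succ]; ring
    rw [e3]
    have e4 : K * ρ * (Real.log n / 4) ≤ K * ρ * Real.log (16 * K / ((q : ℝ) + 1)) :=
      mul_le_mul_of_nonneg_left hlT (by positivity)
    refine le_trans ?_ e4
    have e5 : ρ * Real.log n = 2731 * n := by rw [hρ]; field_simp
    have e6 : K * ρ * (Real.log n / 4) = K * (2731 * n) / 4 := by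
      rw [← e5]; ring
    rw [e6]
    nlinarith [mul_pos hK0 hn0]

theorem good_all {n : ℕ} (hn : 2 ≤ n) {ρ : ℝ} (hρ : ρ = 2731 * n / Real.log n) (m : ℕ) :
    Good n (m + 2) (n * ρ ^ m) ∧ Good n (m + 3) (n * ρ ^ (m + 1)) := by
  induction m with
  | zero =>
    constructor
    · simpa using good_two n
    · have hnR : (2 : ℝ) ≤ n := by exact_mod_cast hn
      have hlog : 0 < Real.log n := Real.log_pos (by linarith)
      have hlog2 : Real.log n ≤ Real.log (2 * n) := Real.log_le_log (by linarith) (by linarith)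
      apply good_three (by omega)
      rw [zero_add, pow_one, hρ]
      have e1 : 64 * (n : ℝ) ^ 2 / Real.log (2 * n) ≤ 64 * (n : ℝ) ^ 2 / Real.log n :=
        div_le_div_of_nonneg_left (by positivity) hlog hlog2
      refine e1.trans ?_
      rw [← mul_div_assoc]
      apply div_le_div_of_nonneg_right _ hlog.le
      nlinarith
  | succ m ih => exact ⟨ih.2, good_rec hn hρ m ih.2 ih.1⟩

/-- **Main theorem.** For all `n ≥ 2` and `m ≥ 3`, with `β = n (2732 n / log n)^(m-2)`: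
every digraph on `k ≥ β` vertices has an independent set of size `n` or a transitive tournament
of size `m`, and `k(n,m) ≤ β`.  For `m = 3`, moreover `k(n,3) ≤ 64 n^2 / log (2n) + 1`. -/
theorem result : ∀ n m : ℕ, 2 ≤ n → 3 ≤ m →
    (∀ k : ℕ, (n : ℝ) * (2732 * n / Real.log n) ^ (m - 2) ≤ k → Arrow k n m) ∧
    (kNum n m : ℝ) ≤ n * (2732 * n / Real.log n) ^ (m - 2) ∧
    (kNum n 3 : ℝ) ≤ 64 * n ^ 2 / Real.log (2 * n) + 1 := by
  intro n m hn hm
  have hnR : (2 : ℝ) ≤ n := by exact_mod_cast hn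
  have hlog : 0 < Real.log n := Real.log_pos (by linarith)
  have hls : Real.log n ≤ √n := log_le_sqrt (by linarith)
  have hsn : √(n : ℝ) * √n = n := Real.mul_self_sqrt (by linarith)
  have hs1 : 1 ≤ √(n : ℝ) := Real.one_le_sqrt.mpr (by linarith)
  have hr1 : 1 ≤ (n : ℝ) / Real.log n := by
    rw [le_div_iff₀ hlog]
    nlinarith
  obtain ⟨j, rfl⟩ : ∃ j, m = j + 3 := ⟨m - 3, by omega⟩
  set r : ℝ := (n : ℝ) / Real.log n with hr
  have hgood := (good_all hn (ρ := 2731 * n / Real.log n) rfl j).2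
  have e1 : 2731 * (n : ℝ) / Real.log n = 2731 * r := by rw [hr]; ring
  have e2 : 2732 * (n : ℝ) / Real.log n = 2732 * r := by rw [hr]; ring
  rw [e1] at hgood
  have hj : j + 3 - 2 = j + 1 := by omega
  rw [e2, hj]
  have hgap : (n : ℝ) * (2731 * r) ^ (j + 1) + 1 ≤ n * (2732 * r) ^ (j + 1) := by
    have h1 : (2731 * r) ^ (j + 1) + 1 ≤ (2732 * r) ^ (j + 1) := by
      have h2 : (2731 * r) ^ j ≤ (2732 * r) ^ j :=
        pow_le_pow_left₀ (by positivity) (by linarith) _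
      have h3 : 1 ≤ (2732 * r) ^ j := one_le_pow₀ (by linarith)
      rw [pow_succ, pow_succ]
      have h4 : (2731 * r) ^ j * (2731 * r) ≤ (2732 * r) ^ j * (2731 * r) :=
        mul_le_mul_of_nonneg_right h2 (by positivity)
      nlinarith
    nlinarith
  refine ⟨?_, ?_, ?_⟩
  · intro k hk
    exact arrow_of_good hgood (by linarith)
  · have h1 : Arrow (⌊(n : ℝ) * (2731 * r) ^ (j + 1)⌋₊ + 1) n (j + 3) := by
      apply arrow_of_good hgood
      push_cast
      exact Nat.lt_floor_add_one _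
    have h2 : kNum n (j + 3) ≤ ⌊(n : ℝ) * (2731 * r) ^ (j + 1)⌋₊ + 1 := Nat.sInf_le h1
    have h3 : (kNum n (j + 3) : ℝ) ≤ (⌊(n : ℝ) * (2731 * r) ^ (j + 1)⌋₊ : ℝ) + 1 := by
      exact_mod_cast h2
    have h4 : (⌊(n : ℝ) * (2731 * r) ^ (j + 1)⌋₊ : ℝ) ≤ (n : ℝ) * (2731 * r) ^ (j + 1) :=
      Nat.floor_le (by positivity)
    linarith
  · have hB : 0 ≤ 64 * (n : ℝ) ^ 2 / Real.log (2 * n) := by
      have : 0 < Real.log (2 * n) := Real.log_pos (by linarith)
      positivity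
    have h1 : Arrow (⌊64 * (n : ℝ) ^ 2 / Real.log (2 * n)⌋₊ + 1) n 3 := by
      apply arrow_of_good (good_three (by omega) _ le_rfl)
      push_cast
      exact Nat.lt_floor_add_one _
    have h2 : kNum n 3 ≤ ⌊64 * (n : ℝ) ^ 2 / Real.log (2 * n)⌋₊ + 1 := Nat.sInf_le h1
    have h3 : (kNum n 3 : ℝ) ≤ (⌊64 * (n : ℝ) ^ 2 / Real.log (2 * n)⌋₊ : ℝ) + 1 := by
      exact_mod_cast h2
    have h4 := Nat.floor_le hB
    linarith

end Pool.Agent.Results.MP_e10cd8_co.LogPowerSaving
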